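import Pool.Agent.Run7.h62.RV.Iface

/-! Piece ANN of the project MP_620441_co. -/

set_option autoImplicit false

namespace Pool.Agent.Run7.h416.RV

open Finset Pool.Agent.Run7.h62.RV

noncomputable section

open scoped Classical

theorem ann : S_ANN := by
  intro s d α β hd hs hα hβ hB
  obtain ⟨N, hN⟩ : ∃ N, s = N + d + 1 := ⟨s - d - 1, by omega⟩
  subst hN
  have hN3 : 3 ≤ N := by omega
  -- the functional equation
  have hB' : ∀ a k : ℕ, 1 ≤ a → a ≤ d → k ≤ N →
      α (a + (N - k)) - α (a + k) = -((N : ℝ) - 2 * k) * (β (a + 1) - β a) := by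
    intro a k h1 h2 h3
    have h4 := hB a k h1 h2 (by omega)
    have e1 : N + d + 1 - d - 1 - k = N - k := by omega
    rw [e1] at h4
    rw [h4]
    push_cast
    ring
  set δ : ℕ → ℝ := fun a => β (a + 1) - β a with hδ
  have hB2 : ∀ a k : ℕ, 1 ≤ a → a ≤ d → k ≤ N →
      α (a + (N - k)) - α (a + k) = -((N : ℝ) - 2 * k) * δ a := hB'
  -- step 1
  have h1 : ∀ a k : ℕ, 1 ≤ a → a + 1 ≤ d → k + 1 ≤ N →
      α (a + k + 2) - α (a + k) = -((N : ℝ) - 2 * k) * δ a + ((N : ℝ) - 2 * k - 2) * δ (a + 1) := by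
    intro a k ha had hk
    have e1 := hB2 a k ha (by omega) (by omega)
    have e2 := hB2 (a + 1) (k + 1) (by omega) had hk
    have e3 : a + 1 + (N - (k + 1)) = a + (N - k) := by omega
    have e4 : a + 1 + (k + 1) = a + k + 2 := by omega
    rw [e3, e4] at e2
    push_cast at e2
    linarith
  -- step 2
  have hNR : (3 : ℝ) ≤ N := by exact_mod_cast hN3
  have h2 : ∀ a : ℕ, 1 ≤ a → a + 2 ≤ d → δ (a + 2) = 2 * δ (a + 1) - δ a := by
    intro a ha had
    have e1 := h1 a 1 ha (by omega) (by omega)
    have e2 := h1 (a + 1) 0 (by omega) (by omega) (by omega)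
    have e3 : a + 1 + 0 + 2 = a + 1 + 2 := by omega
    have e4 : a + 1 + 0 = a + 1 := by omega
    rw [e3, e4] at e2
    have e5 : a + 1 + 1 = a + 2 := by omega
    rw [e5] at e2
    push_cast at e1 e2
    have e6 : ((N : ℝ) - 2) * (δ a - 2 * δ (a + 1) + δ (a + 2)) = 0 := by
      nlinarith [e1, e2]
    have e7 : δ a - 2 * δ (a + 1) + δ (a + 2) = 0 := by
      rcases mul_eq_zero.1 e6 with h | h
      · linarith
      · exact h
    linarith
  -- step 3
  obtain ⟨w', hw'⟩ : ∃ w' : ℝ, w' = δ 2 - δ 1 := ⟨_, rfl⟩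
  have h3 : ∀ a : ℕ, a + 1 ≤ d → δ (a + 1) = δ 1 + a * w' := by
    intro a
    induction a using Nat.strong_induction_on with
    | _ a ih =>
      intro ha
      match a, ih, ha with
      | 0, _, _ => simp
      | 1, _, _ => rw [hw']; push_cast; norm_num
      | a + 2, ih, ha =>
        have e1 := h2 (a + 1) (by omega) (by omega)
        have e2 := ih (a + 1) (by omega) (by omega)
        have e3 := ih a (by omega) (by omega)
        have e4 : a + 1 + 2 = a + 2 + 1 := by omega
        rw [e4] at e1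
        rw [e1, e2, e3]
        push_cast
        ring
  have hsym : δ d = -δ 1 := by
    have e1 := hβ 1 (by omega)
    have e2 := hβ 2 (by omega)
    have e3 : d + 2 - 1 = d + 1 := by omega
    have e4 : d + 2 - 2 = d := by omega
    rw [e3] at e1
    rw [e4] at e2
    simp only [hδ]
    rw [e1, e2]
    norm_num
  obtain ⟨D, hD⟩ : ∃ D, d = D + 1 := ⟨d - 1, by omega⟩
  have hd1 : δ 1 = -(D : ℝ) * w' / 2 := by
    have e1 := h3 D (by omega)
    rw [← hD] at e1
    linarith
  obtain ⟨v, hv⟩ : ∃ v : ℝ, v = w' / 8 := ⟨_, rfl⟩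
  have hdR : (d : ℝ) = D + 1 := by rw [hD]; push_cast; ring
  have h4 : ∀ a : ℕ, 1 ≤ a → a ≤ d → δ a = 4 * v * (2 * a - d - 1) := by
    intro a ha had
    obtain ⟨a', rfl⟩ : ∃ a', a = a' + 1 := ⟨a - 1, by omega⟩
    rw [h3 a' had, hd1, hv, hdR]
    push_cast
    ring
  have h5 : ∀ i : ℕ, i ≤ d → β (i + 1) = (β 1 - v * d ^ 2) + v * ((d : ℝ) + 2 - 2 * ((i + 1 : ℕ) : ℝ)) ^ 2 := by
    intro i
    induction i with
    | zero =>
      intro _
      push_cast
      ring
    | succ i ih =>
      intro hi
      have e1 := ih (by omega)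
      have e2 := h4 (i + 1) (by omega) hi
      have e3 : β (i + 1 + 1) = β (i + 1) + δ (i + 1) := by simp only [hδ]; ring
      rw [e3, e1, e2]
      push_cast
      ring
  -- step 4
  set π : ℕ → ℝ := fun x => α x + v * (((N + d + 1 : ℕ) : ℝ) - 2 * x) ^ 2 with hπ
  have h6 : ∀ x : ℕ, 1 ≤ x → x + 3 ≤ N + d + 1 → π (x + 2) = π x := by
    intro x hx1 hx2
    obtain ⟨a, k, ha, had, hk, hx⟩ : ∃ a k : ℕ, 1 ≤ a ∧ a + 1 ≤ d ∧ k + 1 ≤ N ∧ x = a + k := by
      by_cases h : x ≤ N
      · exact ⟨1, x - 1, le_rfl, by omega, by omega, by omega⟩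
      · exact ⟨x - (N - 1), N - 1, by omega, by omega, by omega, by omega⟩
    have e1 := h1 a k ha had hk
    rw [h4 a ha (by omega), h4 (a + 1) (by omega) had] at e1
    simp only [hπ]
    rw [hx]
    have e2 : α (a + k + 2) = α (a + k) + (-((N : ℝ) - 2 * k) * (4 * v * (2 * a - d - 1)) +
        ((N : ℝ) - 2 * k - 2) * (4 * v * (2 * ((a + 1 : ℕ) : ℝ) - d - 1))) := by linarith
    rw [e2]
    push_cast
    ring
  have h7 : ∀ j : ℕ, 1 ≤ j → j < N + d + 1 → π j = (π 1 + π 2) / 2 + (π 2 - π 1) / 2 * (-1) ^ j := by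
    intro j
    induction j using Nat.strong_induction_on with
    | _ j ih =>
      intro hj1 hj2
      match j, ih, hj1, hj2 with
      | 1, _, _, _ => ring
      | 2, _, _, _ => ring
      | j + 3, ih, hj1, hj2 =>
        have e1 := ih (j + 1) (by omega) (by omega) (by omega)
        have e2 := h6 (j + 1) (by omega) (by omega)
        have e3 : j + 1 + 2 = j + 3 := by omega
        rw [e3] at e2
        rw [e2, e1]
        ring
  refine ⟨(π 1 + π 2) / 2, (π 2 - π 1) / 2, β 1 - v * d ^ 2, v, ?_, ?_, ?_⟩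
  · intro i hi1 hi2
    obtain ⟨i', rfl⟩ : ∃ i', i = i' + 1 := ⟨i - 1, by omega⟩
    exact h5 i' (by omega)
  · intro j hj1 hj2
    have e1 := h7 j hj1 hj2
    rw [← e1]
    simp only [hπ]
    ring
  · intro hu
    by_contra hcon
    apply hu
    have key : ∀ j : ℕ, 1 ≤ j → j < N + d + 1 → Even j → π j = π 1 → π 2 - π 1 = 0 := by
      intro j h1 h2 h3 h4
      have e1 := h7 j h1 h2
      rw [Even.neg_one_pow h3, h4] at e1
      linarith
    have : π 2 - π 1 = 0 := by
      by_cases hse : Even (N + d + 1)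
      · have hde : Even d := by
          rw [← Nat.not_odd_iff_even]
          intro h
          exact hcon ⟨hse, h⟩
        have hNo : Even (1 + N) := by
          rw [Nat.even_add_one, Nat.even_add] at hse
          rw [Nat.even_add]
          constructor
          · intro h
            exact absurd h (by decide)
          · intro h
            exact absurd (by constructor <;> intro _ <;> assumption) hse
        refine key (1 + N) (by omega) (by omega) hNo ?_
        have e1 := hB2 1 0 le_rfl (by omega) (by omega)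
        rw [h4 1 le_rfl (by omega)] at e1
        simp only [Nat.sub_zero, add_zero] at e1
        simp only [hπ]
        have e2 : α (1 + N) = α 1 + -((N : ℝ) - 2 * ((0 : ℕ) : ℝ)) * (4 * v * (2 * ((1 : ℕ) : ℝ) - d - 1)) := by
          linarith
        rw [e2]
        push_cast
        ring
      · have hso : Even (N + d) := by
          rw [Nat.even_add_one, not_not] at hse
          exact hse
        refine key (N + d) (by omega) (by omega) hso ?_
        have e1 := hα 1 (by omega)
        have e2 : N + d + 1 - 1 = N + d := by omega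
        rw [e2] at e1
        simp only [hπ]
        rw [e1]
        push_cast
        ring
    rw [this]
    norm_num

end

end Pool.Agent.Run7.h416.RV
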