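import Pool.Agent.Run7.h62.RV.Iface

/-! Piece FOLD of the project MP_620441_co. -/

set_option autoImplicit false

namespace Pool.Agent.Run7.h416.RV

open Finset Pool.Agent.Run7.h62.RV

noncomputable section

open scoped Classical

theorem fold : S_FOLD := by
  intro m l x g hl hg
  set X : ℕ → ℝ := fun n => if h : n < l then x ⟨n, h⟩ else 0 with hX
  have hR : ∑ i : Fin l, g ((i : ℕ) + 1) * x i = ∑ n ∈ range l, g (n + 1) * X n := by
    rw [Finset.sum_range]
    apply Finset.sum_congr rfl
    intro i _
    simp [hX, i.2]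
  have hs : ∀ j, 1 ≤ j → j < m → Pool.Agent.Run7.h62.RV.symm m x j = X (min j (m - j) - 1) := by
    intro j h1 h2
    have h3 : 0 < min j (m - j) := by
      rw [lt_min_iff]
      omega
    simp only [Pool.Agent.Run7.h62.RV.symm, hX, h3, true_and]
  have hlow : ∀ j, 1 ≤ j → 2 * j < m → g j * ordered m x j = g j * X (j - 1) := by
    intro j h1 h2
    have h3 : min j (m - j) = j := by
      rw [min_eq_left_iff]
      omega
    rw [ordered, if_neg (by omega), one_mul, hs j h1 (by omega), h3]
  have hhigh : ∀ j, j < m → m < 2 * j → g j * ordered m x j = g (m - j) * X (m - j - 1) := by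
    intro j h1 h2
    have h3 : min j (m - j) = m - j := by
      rw [min_eq_right_iff]
      omega
    rw [ordered, if_neg (by omega), one_mul, hs j (by omega) h1, h3, hg j h1.le]
  rw [hR, Finset.mul_sum]
  have hsplit : ∑ n ∈ range l, 2 * (g (n + 1) * X n) = ∑ j ∈ Ico 1 (l + 1), 2 * (g j * X (j - 1)) := by
    rw [Finset.sum_Ico_eq_sum_range]
    apply Finset.sum_congr (by simp)
    intro n _
    rw [add_comm 1 n]
    simp
  rw [hsplit]
  rcases Nat.even_or_odd' m with ⟨c, hc | hc⟩
  · -- `m = 2 c`
    have hlc : l = c := by omega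
    subst hlc
    rcases Nat.eq_zero_or_pos l with h0 | h0
    · subst h0
      have : m = 0 := by omega
      subst this
      simp
    have e1 : ∑ j ∈ Ico 1 m, g j * ordered m x j =
        ∑ j ∈ Ico 1 l, g j * ordered m x j + g l * ordered m x l +
          ∑ j ∈ Ico (l + 1) m, g j * ordered m x j := by
      rw [← Finset.sum_Ico_succ_top (by omega : 1 ≤ l), Finset.sum_Ico_consecutive _ (by omega) (by omega)]
    have e2 : ∑ j ∈ Ico 1 l, g j * ordered m x j = ∑ j ∈ Ico 1 l, g j * X (j - 1) := by
      apply Finset.sum_congr rfl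
      intro j hj
      rw [Finset.mem_Ico] at hj
      exact hlow j hj.1 (by omega)
    have e3 : ∑ j ∈ Ico (l + 1) m, g j * ordered m x j = ∑ j ∈ Ico 1 l, g j * X (j - 1) := by
      have e4 : ∑ j ∈ Ico (l + 1) m, g j * ordered m x j =
          ∑ j ∈ Ico (l + 1) m, g (m - j) * X (m - j - 1) := by
        apply Finset.sum_congr rfl
        intro j hj
        rw [Finset.mem_Ico] at hj
        exact hhigh j hj.2 (by omega)
      rw [e4]
      have e5 := Finset.sum_Ico_reflect (fun j => g j * X (j - 1)) (l + 1) (m := m) (n := m)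
        (by omega)
      rw [e5]
      have e6 : m + 1 - m = 1 := by omega
      have e7 : m + 1 - (l + 1) = l := by omega
      rw [e6, e7]
    have e8 : g l * ordered m x l = 2 * (g l * X (l - 1)) := by
      have h3 : min l (m - l) = l := by
        rw [min_eq_left_iff]
        omega
      rw [ordered, if_pos (by omega), hs l h0 (by omega), h3]
      ring
    rw [e1, e2, e3, e8, Finset.sum_Ico_succ_top (by omega : 1 ≤ l), ← Finset.mul_sum]
    ring
  · -- `m = 2 c + 1`
    have hlc : l = c := by omega
    subst hlc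
    have e1 : ∑ j ∈ Ico 1 m, g j * ordered m x j =
        ∑ j ∈ Ico 1 (l + 1), g j * ordered m x j +
          ∑ j ∈ Ico (l + 1) m, g j * ordered m x j := by
      rw [Finset.sum_Ico_consecutive _ (by omega) (by omega)]
    have e2 : ∑ j ∈ Ico 1 (l + 1), g j * ordered m x j = ∑ j ∈ Ico 1 (l + 1), g j * X (j - 1) := by
      apply Finset.sum_congr rfl
      intro j hj
      rw [Finset.mem_Ico] at hj
      exact hlow j hj.1 (by omega)
    have e3 : ∑ j ∈ Ico (l + 1) m, g j * ordered m x j =
        ∑ j ∈ Ico 1 (l + 1), g j * X (j - 1) := by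
      have e4 : ∑ j ∈ Ico (l + 1) m, g j * ordered m x j =
          ∑ j ∈ Ico (l + 1) m, g (m - j) * X (m - j - 1) := by
        apply Finset.sum_congr rfl
        intro j hj
        rw [Finset.mem_Ico] at hj
        exact hhigh j hj.2 (by omega)
      rw [e4]
      have e5 := Finset.sum_Ico_reflect (fun j => g j * X (j - 1)) (l + 1) (m := m) (n := m)
        (by omega)
      rw [e5]
      have e6 : m + 1 - m = 1 := by omega
      have e7 : m + 1 - (l + 1) = l + 1 := by omega
      rw [e6, e7]
    rw [e1, e2, e3, ← Finset.mul_sum]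
    ring

end

end Pool.Agent.Run7.h416.RV
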