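import Pool.Agent.Run7.h62.RV.Iface

/-! Piece ONE of the project MP_620441_co. -/

set_option autoImplicit false

namespace Pool.Agent.Run7.h416.RV

open Finset Pool.Agent.Run7.h62.RV

noncomputable section

open scoped Classical

/-- the rank of an index -/
def rk {s : ℕ} (t : Fin s → ℝ) (i : Fin s) : ℕ := (univ.filter (fun k => t k < t i)).card

lemma rk_lt {s : ℕ} (t : Fin s → ℝ) (i : Fin s) : rk t i < s := by
  have h1 : univ.filter (fun k => t k < t i) ⊂ (univ : Finset (Fin s)) := by
    rw [Finset.ssubset_univ_iff]
    intro h
    have h2 : i ∈ univ.filter (fun k => t k < t i) := by rw [h]; exact mem_univ i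
    simp at h2
  have h3 := Finset.card_lt_card h1
  simpa [rk] using h3

lemma rk_mono {s : ℕ} (t : Fin s → ℝ) {i k : Fin s} (h : t i < t k) : rk t i < rk t k := by
  apply Finset.card_lt_card
  rw [Finset.ssubset_iff_of_subset]
  · exact ⟨i, by simp [h], by simp⟩
  · intro l hl
    simp only [mem_filter, mem_univ, true_and] at hl ⊢
    exact hl.trans h

lemma rk_le {s : ℕ} (t : Fin s → ℝ) {i k : Fin s} (h : rk t i < rk t k) : t i < t k := by
  by_contra h1
  rw [not_lt] at h1
  rcases h1.eq_or_lt with h2 | h2
  · have : rk t i = rk t k := by simp only [rk, h2]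
    omega
  · have := rk_mono t h2
    omega

lemma rk_inj {s : ℕ} (t : Fin s → ℝ) (ht : Function.Injective t) : Function.Injective (rk t) := by
  intro i k h
  by_contra hne
  rcases lt_trichotomy (t i) (t k) with h1 | h1 | h1
  · have := rk_mono t h1
    omega
  · exact hne (ht h1)
  · have := rk_mono t h1
    omega

lemma rk_image {s : ℕ} (t : Fin s → ℝ) (ht : Function.Injective t) :
    (univ : Finset (Fin s)).image (rk t) = range s := by
  apply Finset.eq_of_subset_of_card_le
  · intro a ha
    rw [mem_image] at ha
    obtain ⟨i, _, rfl⟩ := ha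
    exact mem_range.2 (rk_lt t i)
  · rw [Finset.card_image_of_injective _ (rk_inj t ht)]
    simp

/-- the `j` smallest -/
def Lo {s : ℕ} (t : Fin s → ℝ) (j : ℕ) : Finset (Fin s) := univ.filter (fun i => rk t i < j)

lemma Lo_card {s : ℕ} (t : Fin s → ℝ) (ht : Function.Injective t) {j : ℕ} (hj : j ≤ s) :
    (Lo t j).card = j := by
  have h1 : ((Lo t j).image (rk t)) = range j := by
    ext a
    rw [mem_image, mem_range]
    constructor
    · rintro ⟨i, hi, rfl⟩
      simpa [Lo] using hi
    · intro ha
      have h2 : a ∈ (univ : Finset (Fin s)).image (rk t) := by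
        rw [rk_image t ht, mem_range]
        omega
      obtain ⟨i, _, hi⟩ := mem_image.1 h2
      exact ⟨i, by simp [Lo, hi, ha], hi⟩
  have h2 := congrArg Finset.card h1
  rwa [Finset.card_image_of_injective _ (rk_inj t ht), card_range] at h2

/-- a lower set is `Lo` -/
lemma eq_Lo {s : ℕ} (t : Fin s → ℝ) (ht : Function.Injective t) (T : Finset (Fin s))
    (hT : ∀ i ∈ T, ∀ k ∉ T, t i < t k) : T = Lo t T.card := by
  apply Finset.eq_of_subset_of_card_le
  · intro i hi
    refine Finset.mem_filter.2 ⟨mem_univ _, ?_⟩
    apply Finset.card_lt_card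
    rw [Finset.ssubset_iff_of_subset]
    · exact ⟨i, hi, by simp⟩
    · intro k hk
      simp only [mem_filter, mem_univ, true_and] at hk
      by_contra hkT
      exact absurd (hT i hi k hkT) (by linarith)
  · rw [Lo_card t ht]
    exact (Finset.card_le_univ T).trans (by simp)

/-- thresholds -/
lemma exists_thr {s : ℕ} (t : Fin s → ℝ) (ht : Function.Injective t) {j : ℕ} (hj1 : 1 ≤ j)
    (hj : j < s) : ∃ θ : ℝ, (∀ i ∈ Lo t j, t i < θ) ∧ (∀ i ∉ Lo t j, θ < t i) := by
  have h2 : j - 1 ∈ (univ : Finset (Fin s)).image (rk t) := by
    rw [rk_image t ht, mem_range]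
    omega
  have h3 : j ∈ (univ : Finset (Fin s)).image (rk t) := by
    rw [rk_image t ht, mem_range]
    omega
  obtain ⟨i0, _, hi0⟩ := mem_image.1 h2
  obtain ⟨i1, _, hi1⟩ := mem_image.1 h3
  have h4 : t i0 < t i1 := rk_le t (by omega)
  refine ⟨(t i0 + t i1) / 2, ?_, ?_⟩
  · intro i hi
    have h5 : rk t i < j := by simpa [Lo] using hi
    have h6 : t i ≤ t i0 := by
      by_contra h
      rw [not_le] at h
      have := rk_mono t h
      omega
    linarith
  · intro i hi
    have h5 : j ≤ rk t i := by simpa [Lo] using hi
    have h6 : t i1 ≤ t i := by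
      by_contra h
      rw [not_le] at h
      have := rk_mono t h
      omega
    linarith

/-- a functional on `VS 1` -/
lemma fun_form (f : VS 1 →ₗ[ℝ] ℝ) : ∃ c m : ℝ, ∀ x : Pt 1, f (1, x) = c + m * x 0 := by
  refine ⟨f (1, 0), f (0, EuclideanSpace.single 0 1), fun x => ?_⟩
  have h1 : ((1 : ℝ), x) = (1, 0) + (x 0) • ((0 : ℝ), (EuclideanSpace.single 0 1 : Pt 1)) := by
    ext i
    · simp
    · have : i = 0 := Subsingleton.elim _ _
      subst this
      simp
  rw [h1, map_add, map_smul, smul_eq_mul]
  ring_nf

/-- the functional `x ↦ c + m x` -/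
def aff (c m : ℝ) : VS 1 →ₗ[ℝ] ℝ :=
  c • LinearMap.fst ℝ ℝ (Pt 1) +
    m • ((EuclideanSpace.proj (0 : Fin 1) : Pt 1 →L[ℝ] ℝ).toLinearMap ∘ₗ LinearMap.snd ℝ ℝ (Pt 1))

lemma aff_apply (c m : ℝ) (x : Pt 1) : aff c m (1, x) = c + m * x 0 := by
  simp [aff]

lemma sep_iff {s : ℕ} (p : Fin s → Pt 1) (T : Finset (Fin s)) :
    Sep (lift p) univ T ↔ ∃ c m : ℝ, ∀ i, (i ∈ T → 0 < c + m * p i 0) ∧
      (i ∉ T → c + m * p i 0 < 0) := by
  constructor
  · rintro ⟨f, hf⟩
    obtain ⟨c, m, hcm⟩ := fun_form f
    refine ⟨c, m, fun i => ?_⟩
    have h1 := hf i (mem_univ i)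
    simp only [Pool.Agent.Run7.h62.RV.lift, hcm, sgn] at h1
    constructor
    · intro hi
      rw [if_pos hi] at h1
      linarith
    · intro hi
      rw [if_neg hi] at h1
      linarith
  · rintro ⟨c, m, h⟩
    refine ⟨aff c m, fun i _ => ?_⟩
    simp only [Pool.Agent.Run7.h62.RV.lift, aff_apply, sgn]
    by_cases hi : i ∈ T
    · rw [if_pos hi]
      linarith [(h i).1 hi]
    · rw [if_neg hi]
      linarith [(h i).2 hi]

theorem one : S_ONE := by
  intro s p hp j hj1 hjs
  set t : Fin s → ℝ := fun i => p i 0 with ht
  have htin : Function.Injective t := by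
    intro i k hik
    by_contra hne
    have h1 := hp {i, k} (by rw [Finset.card_pair hne])
    have h2 : p i = p k := by
      ext l
      have : l = 0 := Subsingleton.elim _ _
      subst this
      exact hik
    have h3 := h1.injective (a₁ := ⟨i, by simp⟩) (a₂ := ⟨k, by simp⟩)
      (by simp [Pool.Agent.Run7.h62.RV.lift, h2])
    simp only [Subtype.mk.injEq] at h3
    exact hne h3
  -- the separable sets
  have hsep : ((powersetCard j (univ : Finset (Fin s))).filter (fun T => Sep (lift p) univ T)) =
      {Lo t j, univ \ Lo t (s - j)} := by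
    ext T
    simp only [mem_filter, mem_powersetCard, subset_univ, true_and, mem_insert, mem_singleton]
    rw [sep_iff]
    constructor
    · rintro ⟨hTc, c, m, h⟩
      rcases lt_trichotomy m 0 with hm | hm | hm
      · left
        have h1 := eq_Lo t htin T (fun i hi k hk => by
          have e1 := (h i).1 hi
          have e2 := (h k).2 hk
          simp only [ht]
          nlinarith)
        rw [hTc] at h1
        exact h1
      · exfalso
        subst hm
        obtain ⟨i, hi⟩ : T.Nonempty := by
          rw [← Finset.card_pos]
          omega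
        obtain ⟨k, hk⟩ : ∃ k, k ∉ T := by
          by_contra hcon
          push Not at hcon
          have : T = univ := Finset.eq_univ_iff_forall.2 hcon
          rw [this, Finset.card_univ, Fintype.card_fin] at hTc
          omega
        have e1 := (h i).1 hi
        have e2 := (h k).2 hk
        linarith
      · right
        have h1 := eq_Lo t htin (univ \ T) (fun i hi k hk => by
          have hi' : i ∉ T := by simpa using hi
          have hk' : k ∈ T := by simpa using hk
          have e1 := (h k).1 hk'
          have e2 := (h i).2 hi'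
          simp only [ht]
          nlinarith)
        rw [Finset.card_sdiff_of_subset (subset_univ T), Finset.card_univ, Fintype.card_fin, hTc] at h1
        rw [← h1]
        simp
    · rintro (h | h)
      · obtain ⟨θ, h1, h2⟩ := exists_thr t htin hj1 hjs
        refine ⟨by rw [h, Lo_card t htin hjs.le], θ, -1, fun i => ?_⟩
        rw [h]
        constructor
        · intro hi
          have := h1 i hi
          simp only [ht] at this
          linarith
        · intro hi
          have := h2 i hi
          simp only [ht] at this
          linarith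
      · obtain ⟨θ, h1, h2⟩ := exists_thr t htin (j := s - j) (by omega) (by omega)
        refine ⟨?_, -θ, 1, fun i => ?_⟩
        · rw [h, Finset.card_sdiff_of_subset (subset_univ _), Finset.card_univ, Fintype.card_fin,
            Lo_card t htin (by omega)]
          omega
        · rw [h]
          constructor
          · intro hi
            have := h2 i (by simpa using hi)
            simp only [ht] at this
            linarith
          · intro hi
            have := h1 i (by simpa using hi)
            simp only [ht] at this
            linarith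
  have hne : Lo t j ≠ univ \ Lo t (s - j) := by
    intro h
    have h2 : 0 ∈ (univ : Finset (Fin s)).image (rk t) := by
      rw [rk_image t htin, mem_range]
      omega
    obtain ⟨i0, _, hi0⟩ := mem_image.1 h2
    have h3 : i0 ∈ Lo t j := by
      simp only [Lo, mem_filter, mem_univ, true_and]
      omega
    rw [h] at h3
    simp only [Lo, mem_sdiff, mem_filter, mem_univ, true_and] at h3
    omega
  have hcard : ((powersetCard j (univ : Finset (Fin s))).filter
      (fun T => Sep (lift p) univ T)).card = 2 := by
    rw [hsep, Finset.card_pair hne]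
  have htot := Finset.card_filter_add_card_filter_not (s := powersetCard j (univ : Finset (Fin s)))
    (fun T => Sep (lift p) univ T)
  rw [hcard, Finset.card_powersetCard, Finset.card_univ, Fintype.card_fin] at htot
  have hRN : RN (lift p) j = ((powersetCard j (univ : Finset (Fin s))).filter
      (fun T => ¬ Sep (lift p) univ T)).card := by
    simp only [RN, NS]
    congr 1
    ext T
    simp only [mem_filter, mem_powerset, mem_powersetCard]
    tauto
  rw [hRN]
  have : (2 : ℝ) + (((powersetCard j (univ : Finset (Fin s))).filter
      (fun T => ¬ Sep (lift p) univ T)).card : ℝ) = (s.choose j : ℝ) := by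
    exact_mod_cast htot
  linarith

end

end Pool.Agent.Run7.h416.RV
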